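import Pool.Agent.Lib_helper64.Main
import Pool.Agent.Lib_helper64.TT

/-! # The infinite Lovász–Cherkassky theorem for multigraphs: assembly for lists of darts

Helper file: `Pool.Agent.LC.exists_max` and `Pool.Agent.LC.main_thm` give, in every admissible
multigraph, a family of edge-disjoint `T`-paths orthogonal to cuts. -/

set_option autoImplicit false

namespace Pool.Agent.LCM

open Pool.Agent.LC

universe u v

variable {V : Type u} {E : Type v}

/-- cutting a path short -/
lemma cut_short {G : E → Bool → V} {w v : V} {L : List (E × Bool)} (h : Wk G w L v)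
    (hn : (w :: L.map (hd G)).Nodup) {x : V} (hx : x ∈ w :: L.map (hd G)) :
    ∃ L', Wk G x L' v ∧ (x :: L'.map (hd G)).Nodup ∧ ∀ d ∈ L', d ∈ L := by
  induction L generalizing w with
  | nil =>
    have h1 : w = v := h
    have h2 : x = w := by simpa using hx
    subst h1; subst h2
    exact ⟨[], rfl, by simp, by simp⟩
  | cons d L ih =>
    rcases List.mem_cons.1 hx with rfl | hx'
    · exact ⟨d :: L, h, hn, fun _ h => h⟩
    · obtain ⟨L', h1, h2, h3⟩ := ih h.2 (List.nodup_cons.1 hn).2 (by simpa using hx')
      exact ⟨L', h1, h2, fun d' hd' => List.mem_cons_of_mem _ (h3 d' hd')⟩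

/-- every walk contains a path -/
lemma exists_path {G : E → Bool → V} {w v : V} {L : List (E × Bool)} (h : Wk G w L v) :
    ∃ L', Wk G w L' v ∧ (w :: L'.map (hd G)).Nodup ∧ ∀ d ∈ L', d ∈ L := by
  induction L generalizing w with
  | nil => exact ⟨[], h, by simp, by simp⟩
  | cons d L ih =>
    obtain ⟨L', h1, h2, h3⟩ := ih h.2
    by_cases hw : w ∈ hd G d :: L'.map (hd G)
    · obtain ⟨L'', g1, g2, g3⟩ := cut_short h1 h2 hw
      exact ⟨L'', g1, g2, fun d' hd' => List.mem_cons_of_mem _ (h3 d' (g3 d' hd'))⟩
    · refine ⟨d :: L', ⟨h.1, h1⟩, ?_, ?_⟩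
      · rw [List.map_cons, List.nodup_cons]
        exact ⟨hw, h2⟩
      · intro d' hd'
        rcases List.mem_cons.1 hd' with rfl | hd'
        · simp
        · exact List.mem_cons_of_mem _ (h3 d' hd')

/-- a walk which leaves a set contains a dart which leaves the set -/
lemma exists_leave {G : E → Bool → V} {w v : V} {L : List (E × Bool)} (h : Wk G w L v)
    {S : Set V} (hw : w ∈ S) (hv : v ∉ S) : ∃ d ∈ L, tl G d ∈ S ∧ hd G d ∉ S := by
  induction L generalizing w with
  | nil =>
    have h1 : w = v := h
    exact absurd (h1 ▸ hw) hv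
  | cons d L ih =>
    by_cases hd' : hd G d ∈ S
    · obtain ⟨d', h1, h2⟩ := ih h.2 hd'
      exact ⟨d', List.mem_cons_of_mem _ h1, h2⟩
    · exact ⟨d, by simp, by rw [h.1]; exact hw, hd'⟩

/-- the theorem for lists of darts -/
theorem main (G : E → Bool → V) (T : Set V)
    (hT : ∀ X : Set V, X ⊆ Tᶜ → (cutE G Set.univ X).Finite → Even (cutE G Set.univ X).ncard) :
    ∃ (ι : Type v) (a b : ι → V) (p : ι → List (E × Bool)),
      (∀ i, Wk G (a i) (p i) (b i) ∧ (a i :: (p i).map (hd G)).Nodup ∧ a i ∈ T ∧ b i ∈ T ∧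
        a i ≠ b i ∧ ∀ x ∈ a i :: (p i).map (hd G), x ∈ T → x = a i ∨ x = b i) ∧
      (∀ i j, i ≠ j → ∀ d ∈ p i, ∀ d' ∈ p j, d.1 ≠ d'.1) ∧
      ∀ t ∈ T, ∃ (f : ι → E) (Y : Set V),
        (∀ i, (a i = t ∨ b i = t) → ∃ d ∈ p i, d.1 = f i) ∧ Y ∩ T = {t} ∧
        {e | ∃ i, (a i = t ∨ b i = t) ∧ f i = e} = cutE G Set.univ Y := by
  classical
  let c : V → Option V := fun v => if v ∈ T then some v else none
  have hcT : ∀ v ∈ T, c v = some v := fun v hv => if_pos hv
  have hcs : ∀ v t, c v = some t → v ∈ T ∧ v = t := by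
    intro v t h
    by_cases hv : v ∈ T
    · rw [hcT v hv] at h
      exact ⟨hv, Option.some.inj h⟩
    · exact absurd (show c v = none from if_neg hv) (by rw [h]; simp)
  obtain ⟨c₁, W, hext, hloose, hW⟩ := exists_max G Set.univ c
  have hc1T : ∀ v ∈ T, c₁ v = some v := fun v hv => hext v v (hcT v hv)
  have hadm : Adm G Set.univ c₁ := by
    intro X hX hfin
    refine hT X ?_ hfin
    intro x hx hxT
    have h1 : c₁ x = none := hX hx
    rw [hc1T x hxT] at h1
    exact absurd h1 (by simp)
  obtain ⟨RR, hRR, hRd, hRc⟩ := main_thm G Set.univ c₁ hadm hloose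
  -- terminals of a trail, first and last darts
  choose a b hab using fun i : RR => hRR i.1 i.2
  have hfirst : ∀ i : RR, ∃ g, i.1.head? = some g ∧ g ∈ Lv G Set.univ (Sc c₁ (a i)) := by
    intro i
    obtain ⟨g, R', hR, hg⟩ := (hab i).first
    exact ⟨g, by rw [hR]; rfl, hg⟩
  choose g hg1 hg2 using hfirst
  have hlast : ∀ i : RR, ∃ r, i.1.getLast? = some r ∧ rv r ∈ Lv G Set.univ (Sc c₁ (b i)) := by
    intro i
    obtain ⟨g, R', hR, hg⟩ := (hab i).rev.first
    refine ⟨rv g, ?_, by rwa [rv_rv]⟩
    have : i.1 = rvl (g :: R') := by rw [← hR, rvl_rvl]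
    rw [this, rvl_cons, List.getLast?_concat]
  choose r hr1 hr2 using hlast
  have hgmem : ∀ i : RR, g i ∈ i.1 := fun i => List.mem_of_mem_head? (hg1 i)
  have hrmem : ∀ i : RR, r i ∈ i.1 := fun i => List.mem_of_getLast? (hr1 i)
  have hL : ∀ i : RR, ∃ L ∈ W (a i), L.getLast? = some (g i) :=
    fun i => (hW (a i)).cov (g i) ⟨hg2 i, fun h => h⟩
  choose L hLW hLl using hL
  have hL' : ∀ i : RR, ∃ L ∈ W (b i), L.getLast? = some (rv (r i)) :=
    fun i => (hW (b i)).cov (rv (r i)) ⟨hr2 i, fun h => h⟩
  choose L' hLW' hLl' using hL'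
  -- general facts about a trail of `W t`
  have hWt : ∀ t, ∀ M ∈ W t, ∀ m, M.getLast? = some m → t ∈ T ∧ Wk G t M.dropLast (tl G m) := by
    intro t M hM m hm
    obtain ⟨u, hu, z, hw⟩ := ((hW t).tr M hM).wk
    obtain ⟨huT, rfl⟩ := hcs u t hu
    have hne := ((hW u).tr M hM).ne
    have e1 := (List.dropLast_append_getLast hne).symm
    have e2 : M.getLast hne = m := by
      rw [List.getLast?_eq_some_getLast hne] at hm
      exact Option.some.inj hm
    rw [e1, wk_concat, e2] at hw
    exact ⟨huT, hw.1⟩
  have haT : ∀ i, a i ∈ T := fun i => (hWt _ _ (hLW i) _ (hLl i)).1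
  have hbT : ∀ i, b i ∈ T := fun i => (hWt _ _ (hLW' i) _ (hLl' i)).1
  let P : RR → List (E × Bool) := fun i => (L i).dropLast ++ i.1 ++ rvl (L' i).dropLast
  have hPw : ∀ i, Wk G (a i) (P i) (b i) := by
    intro i
    have h1 := (hWt _ _ (hLW i) _ (hLl i)).2
    have h2 := (hWt _ _ (hLW' i) _ (hLl' i)).2.rvl
    rw [tl_rv] at h2
    obtain ⟨u, hu, v, hv, hw⟩ := (hab i).wk
    refine (h1.append ?_).append h2
    have e1 : tl G (g i) = u := by
      cases hR : i.1 with
      | nil => have := hg1 i; rw [hR] at this; simp at this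
      | cons x xs =>
        have h3 := hg1 i
        rw [hR] at h3 hw
        simp only [List.head?_cons, Option.some.injEq] at h3
        rw [← h3]; exact hw.1
    have e2 : hd G (r i) = v := by
      have hne : i.1 ≠ [] := List.ne_nil_of_mem (hgmem i)
      have e3 := (List.dropLast_append_getLast hne).symm
      have e4 : i.1.getLast hne = r i := by
        have := hr1 i
        rw [List.getLast?_eq_some_getLast hne] at this
        exact Option.some.inj this
      rw [e3, wk_concat, e4] at hw
      exact hw.2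
    rw [e1, e2]; exact hw
  -- classification of darts of `P i`
  have hPc : ∀ i, ∀ d ∈ P i, (d ∈ (L i).dropLast) ∨ d ∈ i.1 ∨ rv d ∈ (L' i).dropLast := by
    intro i d hd
    simp only [P, List.mem_append, mem_rvl] at hd
    tauto
  choose w hw1 hw2 hw3 using fun i => exists_path (hPw i)
  have hne : ∀ i, a i ≠ b i := fun i => (hab i).ne
  -- colours of the vertices on the walk
  have hcol : ∀ i, ∀ x, (x = a i ∨ ∃ d ∈ P i, hd G d = x) →
      c₁ x = some (a i) ∨ c₁ x = some (b i) ∨ c₁ x = none := by
    rintro i x (rfl | ⟨d, hd', rfl⟩)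
    · exact Or.inl (hc1T _ (haT i))
    · rcases hPc i d hd' with h | h | h
      · exact Or.inl (lk_dropLast ((hW _).tr _ (hLW i)) h).2
      · rcases (hab i).hd_cases h with h | ⟨h, _⟩
        · exact Or.inr (Or.inr h)
        · exact Or.inr (Or.inl h)
      · have := (lk_dropLast ((hW _).tr _ (hLW' i)) h).1
        rw [tl_rv] at this
        exact Or.inr (Or.inl this)
  have hin : ∀ i, ∀ d ∈ P i, d ∈ i.1 ∨ ∃ t M m d0, M ∈ W t ∧ M.getLast? = some m ∧
      d0 ∈ M.dropLast ∧ d0.1 = d.1 ∧ ∃ m' ∈ i.1, m'.1 = m.1 := by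
    intro i d hd
    rcases hPc i d hd with h | h | h
    · exact Or.inr ⟨_, _, _, d, hLW i, hLl i, h, rfl, g i, hgmem i, rfl⟩
    · exact Or.inl h
    · exact Or.inr ⟨_, _, _, rv d, hLW' i, hLl' i, h, rfl, r i, hrmem i, rfl⟩
  have hcross : ∀ i t, ∀ d ∈ P i, ¬ (tl G d ∈ Sc c₁ t ↔ hd G d ∈ Sc c₁ t) →
      (a i = t ∧ d = g i) ∨ (b i = t ∧ d = r i) := by
    intro i t d hd' hcr
    have hsome : ∀ x, x ∈ Sc c₁ t → ∀ s, x ∈ Sc c₁ s → s = t := by
      intro x h1 s h2
      have h1 : c₁ x = some t := h1
      have h2 : c₁ x = some s := h2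
      rw [h1] at h2
      exact (Option.some.inj h2).symm
    have hins : ∀ s, tl G d ∈ Sc c₁ s → hd G d ∈ Sc c₁ s → False := by
      intro s h1 h2
      apply hcr
      constructor
      · intro h
        have := hsome _ h _ h1
        rwa [this] at h2
      · intro h
        have := hsome _ h _ h2
        rwa [this] at h1
    rcases hPc i d hd' with h | h | h
    · have := lk_dropLast ((hW _).tr _ (hLW i)) h
      exact (hins _ this.1 this.2).elim
    · by_cases h1 : tl G d ∈ Sc c₁ t
      · left
        rcases (hab i).tl_cases h with h2 | ⟨h2, h3⟩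
        · have h1 : c₁ (tl G d) = some t := h1
          have h2 : c₁ (tl G d) = none := h2
          rw [h1] at h2; exact absurd h2 (by simp)
        · refine ⟨hsome _ h1 _ h2, ?_⟩
          rw [hg1 i] at h3
          exact (Option.some.inj h3).symm
      · have h1' : hd G d ∈ Sc c₁ t := by
          by_contra h2
          exact hcr ⟨fun h => absurd h h1, fun h => absurd h h2⟩
        right
        rcases (hab i).hd_cases h with h2 | ⟨h2, h3⟩
        · have h1 : c₁ (hd G d) = some t := h1'
          have h2 : c₁ (hd G d) = none := h2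
          rw [h1] at h2; exact absurd h2 (by simp)
        · refine ⟨hsome _ h1' _ h2, ?_⟩
          rw [hr1 i] at h3
          exact (Option.some.inj h3).symm
    · have := lk_dropLast ((hW _).tr _ (hLW' i)) h
      rw [tl_rv, hd_rv] at this
      exact (hins _ this.2 this.1).elim
  refine ⟨RR, a, b, w, ?_, ?_, ?_⟩
  · intro i
    refine ⟨hw1 i, hw2 i, haT i, hbT i, hne i, ?_⟩
    intro v hv hvT
    have hv' : v = a i ∨ ∃ d ∈ P i, hd G d = v := by
      rcases List.mem_cons.1 hv with h | h
      · exact Or.inl h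
      · obtain ⟨d, hd1, hd2⟩ := List.mem_map.1 h
        exact Or.inr ⟨d, hw3 i d hd1, hd2⟩
    have h1 := hcol i v hv'
    rw [hc1T v hvT] at h1
    rcases h1 with h1 | h1 | h1
    · exact Or.inl (Option.some.inj h1)
    · exact Or.inr (Option.some.inj h1)
    · exact absurd h1 (by simp)
  · intro i j hij d hd1 d' hd1' hdd
    replace hd1 := hw3 i d hd1
    replace hd1' := hw3 j d' hd1'
    apply hij
    rcases hin i d hd1 with h | ⟨t, M, m, d0, hM, hm, hd0, hd0d, m', hm', hmm⟩
    · rcases hin j d' hd1' with h' | ⟨t, M, m, d0, hM, hm, hd0, hd0d, m', hm', hmm⟩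
      · exact Subtype.ext (hRd _ i.2 _ j.2 d h d' h' hdd)
      · exfalso
        have h3 := lk_dropLast ((hW _).tr _ hM) hd0
        rcases eq_or_eq_rv (d := d) (d' := d0) (hdd.trans hd0d.symm) with rfl | rfl
        · exact (hab i).not_inside h h3.1 h3.2
        · rw [tl_rv, hd_rv] at h3
          exact (hab i).not_inside h h3.2 h3.1
    · rcases hin j d' hd1' with h' | ⟨t2, M2, m2, d2, hM2, hm2, hd2, hd2d, m2', hm2', hmm2⟩
      · exfalso
        have h3 := lk_dropLast ((hW _).tr _ hM) hd0
        rcases eq_or_eq_rv (d := d') (d' := d0) (hdd.symm.trans hd0d.symm) with rfl | rfl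
        · exact (hab j).not_inside h' h3.1 h3.2
        · rw [tl_rv, hd_rv] at h3
          exact (hab j).not_inside h' h3.2 h3.1
      · have h02 : d0.1 = d2.1 := hd0d.trans (hdd.trans hd2d.symm)
        have h3 := lk_dropLast ((hW _).tr _ hM) hd0
        have h4 := lk_dropLast ((hW _).tr _ hM2) hd2
        have ht : t = t2 := by
          have g3 : c₁ (tl G d0) = some t := h3.1
          rcases eq_or_eq_rv (d := d0) (d' := d2) h02 with rfl | rfl
          · have g4 : c₁ (tl G d2) = some t2 := h4.1
            rw [g3] at g4; exact Option.some.inj g4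
          · have g4 : c₁ (hd G (rv d0)) = some t2 := h4.2
            rw [hd_rv, g3] at g4; exact Option.some.inj g4
        subst ht
        have hMM := (hW t).disj M hM M2 hM2 d0 (List.mem_of_mem_dropLast hd0) d2
          (List.mem_of_mem_dropLast hd2) h02
        subst hMM
        rw [hm] at hm2
        have hm2 := Option.some.inj hm2
        subst hm2
        exact Subtype.ext (hRd _ i.2 _ j.2 m' hm' m2' hm2' (hmm.trans hmm2.symm))
  · intro t ht
    have hYT : Sc c₁ t ∩ T = {t} := by
      ext x
      constructor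
      · rintro ⟨h1, h2⟩
        have h1 : c₁ x = some t := h1
        rw [hc1T x h2] at h1
        exact Option.some.inj h1
      · rintro rfl
        exact ⟨hc1T x ht, ht⟩
    refine ⟨fun i => if a i = t then (g i).1 else (r i).1, Sc c₁ t, ?_, hYT, ?_⟩
    · intro i hi
      by_cases hai : a i = t
      · have hbi : b i ≠ t := fun h => hne i (hai.trans h.symm)
        obtain ⟨d, hd1, hd2, hd3⟩ := exists_leave (hw1 i) (S := Sc c₁ t)
          (by rw [← hai]; exact hc1T _ (haT i))
          (by intro h
              have h1 : c₁ (b i) = some t := h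
              rw [hc1T _ (hbT i)] at h1
              exact hbi (Option.some.inj h1))
        rcases hcross i t d (hw3 i d hd1) (fun h => hd3 (h.1 hd2)) with ⟨_, h⟩ | ⟨h, _⟩
        · exact ⟨d, hd1, by simp only [hai, if_true]; rw [h]⟩
        · exact absurd h hbi
      · have hbi : b i = t := by
          rcases hi with h | h
          · exact absurd h hai
          · exact h
        obtain ⟨d, hd1, hd2, hd3⟩ := exists_leave (hw1 i) (S := (Sc c₁ t)ᶜ)
          (by intro h
              have h1 : c₁ (a i) = some t := h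
              rw [hc1T _ (haT i)] at h1
              exact hai (Option.some.inj h1))
          (by intro h
              apply h
              rw [← hbi]; exact hc1T _ (hbT i))
        rcases hcross i t d (hw3 i d hd1) (fun h => hd2 (h.2 (not_not.1 hd3))) with
          ⟨h, _⟩ | ⟨_, h⟩
        · exact absurd h hai
        · exact ⟨d, hd1, by simp only [hai, if_false]; rw [h]⟩
    · ext e
      constructor
      · rintro ⟨i, hi, hfe⟩
        have hcut : ∀ d : E × Bool, d ∈ Lv G Set.univ (Sc c₁ t) →
            d.1 ∈ cutE G Set.univ (Sc c₁ t) := by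
          intro d hd'
          refine ⟨hd'.1, ?_⟩
          have h1 : ¬ (tl G d ∈ Sc c₁ t ↔ hd G d ∈ Sc c₁ t) :=
            fun h => hd'.2.2 (h.1 hd'.2.1)
          rcases d with ⟨e, b⟩
          cases b
          · exact h1
          · exact fun h => h1 h.symm
        by_cases hai : a i = t
        · simp only [hai, if_true] at hfe
          rw [← hfe]
          apply hcut
          rw [← hai]; exact hg2 i
        · have hbi : b i = t := by
            rcases hi with h | h
            · exact absurd h hai
            · exact h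
          simp only [hai, if_false] at hfe
          rw [← hfe, ← rv_fst]
          apply hcut
          rw [← hbi]; exact hr2 i
      · rintro ⟨heA, hcr⟩
        obtain ⟨d, hde, hd1, hd2⟩ : ∃ d : E × Bool, d.1 = e ∧ tl G d ∈ Sc c₁ t ∧
            hd G d ∉ Sc c₁ t := by
          by_cases h0 : G e false ∈ Sc c₁ t
          · refine ⟨(e, false), rfl, h0, ?_⟩
            intro h1
            exact hcr ⟨fun _ => h1, fun _ => h0⟩
          · by_cases h1 : G e true ∈ Sc c₁ t
            · exact ⟨(e, true), rfl, h1, h0⟩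
            · exact absurd ⟨fun h => absurd h h0, fun h => absurd h h1⟩ hcr
        have hdL : d ∈ Lv G Set.univ (Sc c₁ t) := ⟨by rw [hde]; exact heA, hd1, hd2⟩
        have hsome : ∀ x, x ∈ Sc c₁ t → ∀ s, x ∈ Sc c₁ s → s = t := by
          intro x h1 s h2
          have h1 : c₁ x = some t := h1
          have h2 : c₁ x = some s := h2
          rw [h1] at h2
          exact (Option.some.inj h2).symm
        obtain ⟨R, hR, hRR'⟩ := hRc t d hdL
        rcases hRR' with h | h
        · have e1 : g ⟨R, hR⟩ = d := by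
            have := hg1 ⟨R, hR⟩
            rw [h] at this
            exact (Option.some.inj this).symm
          have e2 : a ⟨R, hR⟩ = t := by
            have := (hg2 ⟨R, hR⟩).2.1
            rw [e1] at this
            exact hsome _ hd1 _ this
          refine ⟨⟨R, hR⟩, Or.inl e2, ?_⟩
          simp only [e2, if_true]
          rw [e1, hde]
        · have e1 : r ⟨R, hR⟩ = rv d := by
            have := hr1 ⟨R, hR⟩
            rw [h] at this
            exact (Option.some.inj this).symm
          have e2 : b ⟨R, hR⟩ = t := by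
            have := (hr2 ⟨R, hR⟩).2.1
            rw [e1, rv_rv] at this
            exact hsome _ hd1 _ this
          have e3 : a ⟨R, hR⟩ ≠ t := fun h => hne ⟨R, hR⟩ (h.trans e2.symm)
          refine ⟨⟨R, hR⟩, Or.inr e2, ?_⟩
          simp only [e3, if_false]
          rw [e1, rv_fst, hde]

end Pool.Agent.LCM
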